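import Pool.Agent.Lib_helper68.LSPF.GL

/-! LSP3, part L: from test functions for the harmonic average to proportions with natural
weights. -/

set_option autoImplicit false

namespace Pool.Agent.LSP

open Pool.Agent.LEV Pool.Agent.LVB Pool.Agent.KSL
open Pool.Agent.FG61 (mu phi cc ff AA Lam)
open Complex MeasureTheory Filter Topology UpperHalfPlane ModularGroup ProbabilityTheory
open scoped MatrixGroups Modular ENNReal ModularForm ComplexConjugate ContDiff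

/-- for every short Hecke polynomial `S = ∑ s m U m` there is a test function `g` on the newforms
of every large prime level `N`, `P N`, with first moment against `S` at least `‖s‖ ^ 2 - e` and second
moment at most `(2 / q + e) ‖s‖ ^ 2 + e`, such that, up to a set of small harmonic measure, a value
`g` not too small in comparison with `S` implies the property `Ev` -/
def GD (q : ℝ) (P : ℕ → Prop) (Ev : (N : ℕ) → S2 N → Prop) : Prop :=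
  ∀ (m₀ : ℕ) (s : ℕ → ℝ), (∀ m, s m ≠ 0 → 1 ≤ m ∧ m ≤ m₀) → ∀ e κ : ℝ, 0 < e → 0 < κ →
    ∃ N₀ : ℕ, ∀ (N : ℕ) [Fact N.Prime], N₀ ≤ N → P N →
      ∀ {ι : Type} [Fintype ι] (f : ι → S2 N), AllNew f → ∃ (g : ι → ℝ) (u : Finset ι),
        (∀ i, i ∉ u → κ * |∑ m ∈ Finset.Icc 1 m₀, s m * Um m (la (f i))| ≤ |g i| → g i ≠ 0 →
          co (f i) N = 1 ∧ Ev N (f i)) ∧
        ∑ i ∈ u, om (f i) ≤ e ∧
        ∑ i, om (f i) * g i ^ 2 ≤ (2 / q + e) * ∑ m ∈ Finset.Icc 1 m₀, s m ^ 2 + e ∧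
        ∑ m ∈ Finset.Icc 1 m₀, s m ^ 2 - e ≤
          ∑ i, om (f i) * (g i * ∑ m ∈ Finset.Icc 1 m₀, s m * Um m (la (f i)))

/-- the harmonic average -/
theorem gd_harm {q : ℝ} (hq1 : 1 / 2 ≤ q) (hq2 : q ≤ 1) {P : ℕ → Prop}
    {Ev : (N : ℕ) → S2 N → Prop} (hGD : GD q P Ev) (A : Finset ℕ) (c : ℕ → ℝ)
    (hA : ∀ a ∈ A, 1 ≤ a) (hc : ∀ a, 0 ≤ c a) (ε : ℝ) (hε : 0 < ε) :
    ∃ N₀ : ℕ, ∀ (N : ℕ) [Fact N.Prime], N₀ ≤ N → P N →
      ∀ {ι : Type} [Fintype ι] (f : ι → S2 N), AllNew f → ∃ t : Finset ι,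
        (∀ i ∈ t, co (f i) N = 1 ∧ Ev N (f i)) ∧
        1 / 2 * (q * ∑ a ∈ A, c a) - ε ≤ ∑ i ∈ t, om (f i) * Hd A c (la (f i)) := by
  classical
  have h2q : 2 / q ≤ 4 := by
    rw [div_le_iff₀ (by linarith)]
    linarith
  have h2q0 : 0 < 2 / q := by
    have : 0 < q := by linarith
    positivity
  obtain ⟨h₀, hh₀⟩ : ∃ h₀ : ℝ, h₀ = ∑ a ∈ A, c a := ⟨_, rfl⟩
  have hh0 : 0 ≤ h₀ := by rw [hh₀]; exact Finset.sum_nonneg fun a _ => hc a
  obtain ⟨B, hB⟩ : ∃ B : ℝ, B = h₀ + 1 := ⟨_, rfl⟩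
  have hB1 : 1 ≤ B := by linarith
  obtain ⟨ε', hε0, hεε, hε1⟩ : ∃ ε' : ℝ, 0 < ε' ∧ ε' ≤ ε / 8 ∧ ε' ≤ 1 :=
    ⟨min ε 1 / 8, by positivity, by have := min_le_left ε 1; linarith,
      by have := min_le_right ε 1; linarith⟩
  obtain ⟨e, he0, hse⟩ : ∃ e : ℝ, 0 < e ∧ Real.sqrt e = ε' / (400 * B) :=
    ⟨(ε' / (400 * B)) ^ 2, by positivity, Real.sqrt_sq (by positivity)⟩
  obtain ⟨κ', hκ'0, hκ'⟩ : ∃ κ' : ℝ, 0 < κ' ∧ κ' ≤ ε' / (16 * B) :=
    ⟨ε' / (16 * B), by positivity, le_rfl⟩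
  obtain ⟨I, m₀, s, hIp, hm₀, hs, hsd, C₄, N₁, hC₄, hpoly⟩ := poly_data A c hA hc hε0
  rw [← hh₀] at hsd
  obtain ⟨x, hx⟩ : ∃ x : ℝ, x = ∑ m ∈ Finset.Icc 1 m₀, s m ^ 2 := ⟨_, rfl⟩
  have hx0 : 0 ≤ x := by rw [hx]; exact Finset.sum_nonneg fun m _ => sq_nonneg _
  rw [← hx] at hsd
  have hxB : x ≤ B := by
    have := (abs_le.mp hsd).2
    linarith
  obtain ⟨et, het0, het⟩ : ∃ et : ℝ, 0 < et ∧ Real.sqrt (et * C₄) ≤ ε' := by
    refine ⟨ε' ^ 2 / (C₄ + 1), by positivity, ?_⟩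
    apply Real.sqrt_le_iff.mpr
    refine ⟨hε0.le, ?_⟩
    have h2 : ε' ^ 2 / (C₄ + 1) * C₄ = ε' ^ 2 * (C₄ / (C₄ + 1)) := by
      field_simp
    rw [h2]
    have h3 : C₄ / (C₄ + 1) ≤ 1 := by
      rw [div_le_one (by positivity)]
      linarith
    calc ε' ^ 2 * (C₄ / (C₄ + 1)) ≤ ε' ^ 2 * 1 := by gcongr
      _ = ε' ^ 2 := mul_one _
  obtain ⟨e', he'0, he'B, he't⟩ : ∃ e' : ℝ, 0 < e' ∧ e' ≤ e / B ∧ e' ≤ et :=
    ⟨min (e / B) et, lt_min (by positivity) het0, min_le_left _ _, min_le_right _ _⟩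
  have he'e : e' ≤ e := he'B.trans (div_le_self he0.le hB1)
  obtain ⟨N₂, hN₂⟩ := hGD m₀ s (fun m hm => ⟨(hs m hm).1, (hs m hm).2.1⟩) e' κ' he'0 hκ'0
  refine ⟨N₁ + N₂, fun N _ hN hP ι _ f hf => ?_⟩
  obtain ⟨g, u, hgu, hu, hg2, hg1⟩ := hN₂ N (by omega) hP f hf
  obtain ⟨S, hS⟩ : ∃ S : ι → ℝ, S = fun i => ∑ m ∈ Finset.Icc 1 m₀, s m * Um m (la (f i)) :=
    ⟨_, rfl⟩
  obtain ⟨hp1, hp2, hp3, hp4⟩ := hpoly N (by omega) f hf
  have hSi : ∀ i, ∑ m ∈ Finset.Icc 1 m₀, s m * Um m (la (f i)) = S i := fun i => by rw [hS]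
  simp only [hSi] at hp1 hp2 hp3 hp4 hgu hg1
  rw [← hx] at hp2 hp3 hg2 hg1
  have hn : ∀ i, IsNew (f i) := fun i => (hf.2 (f i)).mpr ⟨i, rfl⟩
  have hom : ∀ i, 0 ≤ om (f i) := fun i => (fid_om (hn i)).2.1.le
  have hcn : x + e' * x / (2 / q) ≤ (Real.sqrt x + Real.sqrt e) ^ 2 := by
    have h1 : e' * x / (2 / q) ≤ e := by
      have h2 : e' * x ≤ e := by
        calc e' * x ≤ e / B * B := mul_le_mul he'B hxB hx0 (by positivity)
          _ = e := by field_simp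
      have h3 : 1 ≤ 2 / q := by
        rw [le_div_iff₀ (by linarith)]
        linarith
      exact (div_le_self (by positivity) h3).trans h2
    have h2 : (Real.sqrt x + Real.sqrt e) ^ 2 = x + e + 2 * (Real.sqrt x * Real.sqrt e) := by
      calc (Real.sqrt x + Real.sqrt e) ^ 2 = Real.sqrt x ^ 2 + Real.sqrt e ^ 2 +
            2 * (Real.sqrt x * Real.sqrt e) := by ring
        _ = _ := by rw [Real.sq_sqrt hx0, Real.sq_sqrt he0.le]
    rw [h2]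
    have h3 : 0 ≤ Real.sqrt x * Real.sqrt e := by positivity
    linarith
  have hcn2 : 2 / q * (x + e' * x / (2 / q)) = (2 / q + e') * x := by
    field_simp
  obtain ⟨t, ht, htS⟩ := cr_core (fun i => om (f i)) g S hom (q := q) (x := x) (e := e) (B := B)
    (ε := ε') (b := 2 / q) (κ := κ') (cn := x + e' * x / (2 / q)) hq1 hq2 hx0 hxB hB1 hε0 hε1 he0
    hse.le h2q0.le (by linarith) hκ'0 hκ' (Real.sqrt_le_iff.mpr ⟨by positivity, hcn⟩)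
    (by positivity) (by linarith) (by
      rw [hcn2]
      linarith) hp3
  have hfin := cr_fin (fun i => om (f i)) S (fun i => Hd A c (la (f i))) hom
    (fun i => Finset.sum_nonneg fun a _ => mul_nonneg (hc a) (sq_nonneg _)) (d := ε')
    (e := et) (C := C₄) het0.le hp1 hp4 t u (hu.trans he't) htS het
  refine ⟨t \ u, ?_, ?_⟩
  · intro i hi
    rw [Finset.mem_sdiff] at hi
    obtain ⟨hit, hiu⟩ := hi
    obtain ⟨h2, h3⟩ := ht i hit
    refine hgu i hiu h2 fun h4 => ?_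
    rw [h4, abs_zero] at h2
    have := mul_pos hκ'0 (abs_pos.mpr h3)
    linarith
  · have h2 := (abs_le.mp hsd).1
    have h3 : q * h₀ - q * x ≤ ε' := by
      have h4 : h₀ - x ≤ ε' := by linarith
      have h5 : q * (h₀ - x) ≤ ε' := by
        by_cases h6 : 0 ≤ h₀ - x
        · calc q * (h₀ - x) ≤ 1 * (h₀ - x) := mul_le_mul_of_nonneg_right hq2 h6
            _ ≤ ε' := by linarith
        · push Not at h6
          have : q * (h₀ - x) ≤ 0 := mul_nonpos_of_nonneg_of_nonpos (by linarith) h6.le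
          linarith
      linarith
    rw [← hh₀]
    linarith

/-- **natural weights**: at least `q - δ` of the newforms have the property `Ev` -/
theorem gd_nat {q : ℝ} (hq1 : 1 / 2 ≤ q) (hq2 : q ≤ 1) {P : ℕ → Prop}
    {Ev : (N : ℕ) → S2 N → Prop} (hGD : GD q P Ev) {δ : ℝ} (hδ : 0 < δ) :
    ∃ N₀ : ℕ, ∀ (N : ℕ) [Fact N.Prime], N₀ ≤ N → P N →
      (q - δ) * (N / 24) ≤ ({f : S2 N | (IsNew f ∧ co f N = 1) ∧ Ev N f}.ncard : ℝ) := by
  obtain ⟨A, w, ε₁, N₀, hA, hw, hε₁, hnat⟩ := nat_gen (q := q) (by linarith) hq2 hδ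
  obtain ⟨N₁, hN₁⟩ := gd_harm hq1 hq2 hGD A w hA hw ε₁ hε₁
  refine ⟨N₀ + N₁, fun N _ hN hP => ?_⟩
  have h4 := hnat N (by omega) (Ev N) (hN₁ N (by omega) hP)
  calc (q - δ) * ((N : ℝ) / 24) = (N : ℝ) / 24 * (q - δ) := by ring
    _ ≤ _ := h4

end Pool.Agent.LSP
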