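import Pool.Agent.Lib_helper71.LSP3.TOP

/-! LSP3: the lower bound for the size, at every prime level whose exceptional characters with
`χ(-N) = 1` have no zero closer to `1` than a power of `log N`. -/

set_option autoImplicit false

namespace Pool.Agent.LSP

open Pool.Agent.LEV Pool.Agent.LVB Pool.Agent.KSL
open Pool.Agent.LK (KerC PQ)
open Pool.Agent.FG61 (mu phi cc ff AA Lam)
open Complex MeasureTheory Filter Topology UpperHalfPlane ModularGroup ProbabilityTheory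
open scoped MatrixGroups Modular ENNReal ModularForm ComplexConjugate ContDiff

/-- smaller thresholds are met more often -/
theorem thr_mono {N : ℕ} [Fact N.Prime] {A w : ℕ} (hl : 1 ≤ Real.log N) (hA : w ≤ A) :
    ({f : S2 N | (IsNew f ∧ co f N = 1) ∧ 1 / Real.log N ^ w ≤ ‖Lh f‖}.ncard : ℝ) ≤
      ({f : S2 N | (IsNew f ∧ co f N = 1) ∧ 1 / Real.log N ^ A ≤ ‖Lh f‖}.ncard : ℝ) := by
  obtain ⟨_, _, hnf⟩ := new_fin
  have hF : {f : S2 N | IsNew f}.Finite := (hnf N).1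
  exact Nat.cast_le.mpr (Set.ncard_le_ncard (fun f hf => ⟨hf.1, le_trans
    (one_div_le_one_div_of_le (pow_pos (by linarith) _) (pow_le_pow_right₀ hl hA)) hf.2⟩)
    (hF.subset fun f hf => hf.1.1))

/-- **more than half of the central values are at least a power of `1 / log N`**, at every large
prime level at which no exceptional character with `χ(-N) = 1` has a zero closer to `1` than
`(log N)^{-B}` -/
theorem all_levelsB {qm qp : ℝ} (hqm : 1 / 2 < qm) (hqm1 : qm ≤ 1) (hqp : 1 / 2 < qp)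
    (hqp1 : qp ≤ 1) (hm : ExDataB qm (ExZ 1)) (hp : ∀ B : ℝ, 0 < B → ExDataB qp (ExZB B 0)) :
    ∀ B : ℝ, 0 < B → ∃ (κ c : ℝ) (A N₀ : ℕ), 0 < κ ∧ 0 < c ∧ c ≤ 1 ∧
      ∀ (N : ℕ) [Fact N.Prime], N₀ ≤ N →
        (∀ (q : ℕ) [NeZero q] (χ : DirichletCharacter ℂ q), PQ χ → (q : ℝ) ≤ (N : ℝ) ^ κ →
          χ (-(N : ZMod q)) = 1 → ∀ β : ℝ, 1 - Real.log N ^ (-B) < β →
            DirichletCharacter.LFunction χ (β : ℂ) ≠ 0) →
        (1 / 2 + c) * (N / 24) ≤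
          ({f : S2 N | (IsNew f ∧ co f N = 1) ∧ 1 / Real.log N ^ A ≤ ‖Lh f‖}.ncard : ℝ) := by
  intro B hB
  obtain ⟨κ₁, w₁, hκ₁, h1⟩ := ex_levelB (q := qm) hqm.le hqm1 hm
    (δ := (qm - 1 / 2) / 2) (by linarith)
  obtain ⟨κ₂, w₂, hκ₂, h2⟩ := ex_levelB (q := qp) hqp.le hqp1 (hp B hB)
    (δ := (qp - 1 / 2) / 2) (by linarith)
  obtain ⟨κ₀, hκ₀, hκ₀1, hκ₀2, hκ₀3⟩ : ∃ κ₀ : ℝ, 0 < κ₀ ∧ κ₀ ≤ κ₁ ∧ κ₀ ≤ κ₂ ∧ κ₀ ≤ 1 / 2 :=
    ⟨min (min κ₁ κ₂) (1 / 2), lt_min (lt_min hκ₁ hκ₂) (by norm_num),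
      (min_le_left _ _).trans (min_le_left _ _), (min_le_left _ _).trans (min_le_right _ _),
      min_le_right _ _⟩
  obtain ⟨N₁, hN₁⟩ := h1 κ₀ hκ₀ hκ₀1
  obtain ⟨N₂, hN₂⟩ := h2 κ₀ hκ₀ hκ₀2
  obtain ⟨κ, c, hκ, hκκ, -, hc, hc1, h3⟩ := free_small hκ₀ hκ₀
  obtain ⟨N₃, hN₃⟩ := h3 1 (by norm_num)
  have hl : Tendsto (fun N : ℕ => Real.log (N : ℝ)) atTop atTop :=
    Real.tendsto_log_atTop.comp tendsto_natCast_atTop_atTop
  obtain ⟨N₄, hN₄⟩ := Filter.eventually_atTop.mp (hl.eventually_ge_atTop 1)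
  obtain ⟨c', hc', hc'1, hc'2, hc'3⟩ : ∃ c' : ℝ, 0 < c' ∧ c' ≤ c ∧ c' ≤ (qm - 1 / 2) / 2 ∧
      c' ≤ (qp - 1 / 2) / 2 :=
    ⟨min c (min ((qm - 1 / 2) / 2) ((qp - 1 / 2) / 2)),
      lt_min hc (lt_min (by linarith) (by linarith)), min_le_left _ _,
      (min_le_right _ _).trans (min_le_left _ _), (min_le_right _ _).trans (min_le_right _ _)⟩
  refine ⟨κ₀, c', w₁ + w₂ + 1, N₁ + N₂ + N₃ + N₄ + 3, hκ₀, hc', hc'1.trans hc1,
    fun N _ hN hz => ?_⟩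
  have hN0 : (0 : ℝ) ≤ (N : ℝ) / 24 := by positivity
  have hl1 : 1 ≤ Real.log N := hN₄ N (by omega)
  have hNp : N.Prime := Fact.out
  by_cases hf : GA.Free (κ₀ / Real.log N) ⌊(N : ℝ) ^ κ⌋₊
  · have h4 := hN₃ N (by omega) hf N (by omega) (by omega)
    have h9 : (1 / 2 + c') * ((N : ℝ) / 24) ≤ (1 / 2 + c) * ((N : ℝ) / 24) :=
      mul_le_mul_of_nonneg_right (by linarith) hN0
    have h5 := thr_mono (N := N) (A := w₁ + w₂ + 1) (w := 1) hl1 (by omega)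
    simp only [Real.rpow_one] at h4
    simp only [pow_one] at h5
    exact h9.trans (h4.trans h5)
  · rcases not_free hκκ hκ₀3 hNp hf with h4 | h4
    · obtain ⟨q, hq, χ, β, hPQ, hqN, hχ, hlt, hβ1, hβ⟩ := h4
      have hχ1 : χ (-(N : ZMod q)) = 1 := by rw [hχ]; simp
      have hβB : β ≤ 1 - Real.log N ^ (-B) := by
        by_contra h6
        push Not at h6
        exact hz q χ hPQ hqN hχ1 β h6 hβ
      have h7 : ExZB B 0 κ₀ N := ⟨q, hq, χ, β, hPQ, hqN, hχ, hlt, hβB, hβ⟩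
      have h8 := hN₂ N (by omega) h7
      have h9 : (1 / 2 + c') * ((N : ℝ) / 24) ≤ (qp - (qp - 1 / 2) / 2) * ((N : ℝ) / 24) :=
        mul_le_mul_of_nonneg_right (by linarith) hN0
      exact h9.trans (h8.trans (thr_mono (A := w₁ + w₂ + 1) (w := w₂) hl1 (by omega)))
    · have h8 := hN₁ N (by omega) h4
      have h9 : (1 / 2 + c') * ((N : ℝ) / 24) ≤ (qm - (qm - 1 / 2) / 2) * ((N : ℝ) / 24) :=
        mul_le_mul_of_nonneg_right (by linarith) hN0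
      exact h9.trans (h8.trans (thr_mono (A := w₁ + w₂ + 1) (w := w₁) hl1 (by omega)))

end Pool.Agent.LSP
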